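import Pool.Agent.H83.PALOne

/-!
The complexity of the set of finitely valid formulas of public announcement logic with common
knowledge and iterated announcements: for at least two agents it is a complete co-r.e. set
(so not decidable), for one agent it is decidable.
-/

namespace Pool.Agent.Results.MP_6a7b9a_lc.Complexity

open Pool.Agent.H83.PAL

theorem result :
    (∀ k : ℕ, 2 ≤ k →
      REPred (fun m => ¬ finValidCodes k m) ∧
      (∀ p : ℕ → Prop, REPred (fun n => ¬ p n) → ManyOneReducible p (finValidCodes k)) ∧
      ¬ ComputablePred (finValidCodes k)) ∧
    ComputablePred (finValidCodes 1) :=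
  ⟨fun k hk => ⟨upper k, fun p hp => hard hk p hp, not_computable hk⟩, computable_one⟩

end Pool.Agent.Results.MP_6a7b9a_lc.Complexity
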